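import Mathlib
import Pool.Agent.MP_b9d149_co.Defs

section

set_option linter.unusedSectionVars false

namespace Pool.Agent.MP_b9d149_co

open Set Module

section Euclid

variable {V : Type*} [NormedAddCommGroup V] [NormedSpace ℝ V] [FiniteDimensional ℝ V]

/-- the complement of finitely many proper subspaces is dense -/
lemma dense_avoid {Z : Set (Submodule ℝ V)} (hZ : Z.Finite) (h : ∀ S ∈ Z, S ≠ ⊤) :
    Dense {x : V | ∀ S ∈ Z, x ∉ S} := by
  have : {x : V | ∀ S ∈ Z, x ∉ S} = ⋂₀ ((fun S : Submodule ℝ V => (S : Set V)ᶜ) '' Z) := by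
    ext x; simp
  rw [this]
  apply (hZ.image _).dense_sInter
  · rintro _ ⟨S, -, rfl⟩
    exact S.closed_of_finiteDimensional.isOpen_compl
  · rintro _ ⟨S, hS, rfl⟩
    rw [← interior_eq_empty_iff_dense_compl]
    by_contra hne
    exact h S hS (S.eq_top_of_nonempty_interior' (nonempty_iff_ne_empty.2 hne))

lemma ne_top_of_finrank_lt {S : Submodule ℝ V} (h : finrank ℝ S < finrank ℝ V) : S ≠ ⊤ := by
  rintro rfl
  simp at h

lemma finrank_sup_span_singleton_le (S : Submodule ℝ V) (x : V) :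
    finrank ℝ ↥(S ⊔ Submodule.span ℝ {x}) ≤ finrank ℝ S + 1 := by
  refine (Submodule.finrank_add_le_finrank_add_finrank _ _).trans ?_
  gcongr
  simpa using finrank_span_le_card (R := ℝ) ({x} : Set V)

lemma segment_avoid {Z : Set (Submodule ℝ V)} {U : Set V} (hU : Convex ℝ U) {x z : V}
    (hx : x ∈ U) (hz : z ∈ U) (hxZ : ∀ S ∈ Z, x ∉ S)
    (hzZ : ∀ S ∈ Z, z ∉ S ⊔ Submodule.span ℝ {x}) :
    segment ℝ x z ⊆ U ∩ {y | ∀ S ∈ Z, y ∉ S} := by
  intro y hy
  refine ⟨hU.segment_subset hx hz hy, fun S hS hyS => ?_⟩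
  obtain ⟨a, b, ha, hb, hab, rfl⟩ := hy
  rcases hb.eq_or_lt with rfl | hb
  · have : a = 1 := by linarith
    subst this
    exact hxZ S hS (by simpa using hyS)
  · apply hzZ S hS
    have : z = b⁻¹ • (a • x + b • z) - (b⁻¹ * a) • x := by
      rw [smul_add, smul_smul, smul_smul, inv_mul_cancel₀ hb.ne', one_smul]; abel
    rw [this]
    refine Submodule.sub_mem _ (Submodule.mem_sup_left (S.smul_mem _ hyS))
      (Submodule.mem_sup_right (Submodule.smul_mem _ _ (Submodule.mem_span_singleton_self x)))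

/-- an open convex set minus finitely many subspaces of codimension at least two is connected -/
lemma isPreconnected_convex_avoid {Z : Set (Submodule ℝ V)} (hZ : Z.Finite)
    (h : ∀ S ∈ Z, finrank ℝ S + 2 ≤ finrank ℝ V) {U : Set V} (hU : Convex ℝ U) (hUo : IsOpen U) :
    IsPreconnected (U ∩ {y | ∀ S ∈ Z, y ∉ S}) := by
  apply isPreconnected_of_forall_pair
  intro x hx y hy
  let Z' : Set (Submodule ℝ V) :=
    (fun S => S ⊔ Submodule.span ℝ {x}) '' Z ∪ (fun S => S ⊔ Submodule.span ℝ {y}) '' Z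
  have hZ' : Z'.Finite := (hZ.image _).union (hZ.image _)
  have hne : ∀ S ∈ Z', S ≠ ⊤ := by
    rintro _ (⟨S, hS, rfl⟩ | ⟨S, hS, rfl⟩)
    · exact ne_top_of_finrank_lt
        ((finrank_sup_span_singleton_le S x).trans_lt (by have := h S hS; omega))
    · exact ne_top_of_finrank_lt
        ((finrank_sup_span_singleton_le S y).trans_lt (by have := h S hS; omega))
  obtain ⟨z, hzU, hz⟩ := (dense_avoid hZ' hne).inter_open_nonempty U hUo ⟨x, hx.1⟩
  refine ⟨segment ℝ x z ∪ segment ℝ y z, union_subset ?_ ?_, Or.inl (left_mem_segment _ _ _),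
    Or.inr (left_mem_segment _ _ _), ?_⟩
  · exact segment_avoid hU hx.1 hzU hx.2 fun S hS => hz _ (Or.inl ⟨S, hS, rfl⟩)
  · exact segment_avoid hU hy.1 hzU hy.2 fun S hS => hz _ (Or.inr ⟨S, hS, rfl⟩)
  · exact IsPreconnected.union z (right_mem_segment _ _ _) (right_mem_segment _ _ _)
      (convex_segment x z).isPreconnected (convex_segment y z).isPreconnected

lemma exists_sep (τ : PointedCone ℝ V) (hτ : IsClosed (τ : Set V)) {p : V} (hp : p ∉ τ) :
    ∃ f : V →L[ℝ] ℝ, (∀ x ∈ τ, 0 ≤ f x) ∧ f p < 0 :=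
  ProperCone.hyperplane_separation_point (⟨τ, hτ⟩ : ProperCone ℝ V) hp

lemma exists_ker_notMem {ι : Type*} (J : Finset ι) (h : ι → V →L[ℝ] ℝ) (τ : PointedCone ℝ V)
    (hd : finrank ℝ τ.lineal + J.card < finrank ℝ V) :
    ∃ v : V, (∀ j ∈ J, h j v = 0) ∧ v ∉ τ := by
  let F : V →ₗ[ℝ] (J → ℝ) := LinearMap.pi fun j => (h j.1 : V →ₗ[ℝ] ℝ)
  have h1 := F.finrank_range_add_finrank_ker
  have h2 : finrank ℝ (LinearMap.range F) ≤ J.card := by
    simpa using Submodule.finrank_le (LinearMap.range F)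
  have h3 : ¬ LinearMap.ker F ≤ τ.lineal := fun hle => by
    have := Submodule.finrank_mono hle
    omega
  obtain ⟨v, hv, hvτ⟩ := SetLike.not_le_iff_exists.1 h3
  have hv' : ∀ j ∈ J, h j v = 0 := fun j hj => by
    simpa [F] using congrFun (LinearMap.mem_ker.1 hv) ⟨j, hj⟩
  by_cases hm : v ∈ τ
  · refine ⟨-v, fun j hj => by simp [hv' j hj], fun hn => hvτ ?_⟩
    exact PointedCone.mem_lineal.2 ⟨hm, hn⟩
  · exact ⟨v, hv', hm⟩

lemma exists_large (a b : ℝ) (hb : b < 0) : ∃ t : ℝ, 0 ≤ t ∧ a + t * b < 0 := by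
  refine ⟨(|a| + 1) / (-b), div_nonneg (by positivity) (by linarith), ?_⟩
  have : (|a| + 1) / (-b) * b = -(|a| + 1) := by
    field_simp [hb.ne]
  rw [this]
  have := le_abs_self a
  linarith

/-- few closed cones with small lineality do not cover the space -/
lemma exists_notMem_cones {ι : Type*} (τ : ι → PointedCone ℝ V) (ℓ : ℕ) (J : Finset ι)
    (hτ : ∀ i ∈ J, IsClosed (τ i : Set V)) (hℓ : ∀ i ∈ J, finrank ℝ (τ i).lineal ≤ ℓ)
    (hd : J.card + ℓ ≤ finrank ℝ V) : ∃ v : V, ∀ i ∈ J, v ∉ τ i := by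
  classical
  suffices H : ∃ h : ι → V →L[ℝ] ℝ, (∀ i ∈ J, ∀ x ∈ τ i, 0 ≤ h i x) ∧ ∃ u, ∀ i ∈ J, h i u < 0 by
    obtain ⟨h, h1, u, hu⟩ := H
    exact ⟨u, fun i hi hm => (h1 i hi u hm).not_gt (hu i hi)⟩
  induction J using Finset.induction_on with
  | empty => exact ⟨0, by simp, 0, by simp⟩
  | insert i J hi ih =>
    rw [Finset.card_insert_of_notMem hi] at hd
    obtain ⟨h, h1, u, hu⟩ := ih (fun j hj => hτ j (Finset.mem_insert_of_mem hj))
      (fun j hj => hℓ j (Finset.mem_insert_of_mem hj)) (by omega)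
    obtain ⟨v, hv, hvτ⟩ := exists_ker_notMem J h (τ i)
      (by have := hℓ i (Finset.mem_insert_self _ _); omega)
    obtain ⟨f, hf, hfv⟩ := exists_sep (τ i) (hτ i (Finset.mem_insert_self _ _)) hvτ
    obtain ⟨t, -, ht⟩ := exists_large (f u) (f v) hfv
    refine ⟨Function.update h i f, fun j hj => ?_, u + t • v, fun j hj => ?_⟩
    · rcases Finset.mem_insert.1 hj with rfl | hj
      · simpa using hf
      · have : j ≠ i := fun e => hi (e ▸ hj)
        simpa [this] using h1 j hj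
    · rcases Finset.mem_insert.1 hj with rfl | hj
      · simpa using ht
      · have : j ≠ i := fun e => hi (e ▸ hj)
        simpa [this, hv j hj] using hu j hj

lemma exists_notMem_cones_submodule {ι : Type*} (τ : ι → PointedCone ℝ V) (ℓ : ℕ) (J : Finset ι)
    (hτ : ∀ i ∈ J, IsClosed (τ i : Set V)) (hℓ : ∀ i ∈ J, finrank ℝ (τ i).lineal ≤ ℓ)
    (Λ : Submodule ℝ V) (hd : J.card + ℓ ≤ finrank ℝ Λ) : ∃ v ∈ Λ, ∀ i ∈ J, v ∉ τ i := by
  obtain ⟨v, hv⟩ := exists_notMem_cones (V := Λ) (fun i => (τ i).comap Λ.subtype) ℓ J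
    (fun i hi => (hτ i hi).preimage continuous_subtype_val)
    (fun i hi => by
      refine le_trans ?_ (hℓ i hi)
      have hle : ((τ i).comap Λ.subtype).lineal.map Λ.subtype ≤ (τ i).lineal := by
        rintro _ ⟨x, hx, rfl⟩
        have hx' := PointedCone.mem_lineal.1 hx
        exact PointedCone.mem_lineal.2 ⟨hx'.1, by simpa using hx'.2⟩
      rw [← Submodule.finrank_map_subtype_eq]
      exact Submodule.finrank_mono hle) hd
  exact ⟨v, v.2, fun i hi => hv i hi⟩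

/-- Balinski-type statement in a vector space -/
lemma isPreconnected_compl_cones {ι : Type*} [Fintype ι] (τ : ι → PointedCone ℝ V) (ℓ : ℕ)
    (hτ : ∀ i, IsClosed (τ i : Set V)) (hℓ : ∀ i, finrank ℝ (τ i).lineal ≤ ℓ)
    (hd : Fintype.card ι + ℓ < finrank ℝ V) {Z : Set (Submodule ℝ V)} (hZ : Z.Finite)
    (hZd : ∀ S ∈ Z, finrank ℝ S + 2 ≤ finrank ℝ V) :
    IsPreconnected ({x | ∀ i, x ∉ τ i} ∩ {y | ∀ S ∈ Z, y ∉ S}) := by
  classical
  set T : Set V := {x | ∀ i, x ∉ τ i} ∩ {y | ∀ S ∈ Z, y ∉ S} with hT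
  have hdense : Dense {y : V | ∀ S ∈ Z, y ∉ S} :=
    dense_avoid hZ fun S hS => ne_top_of_finrank_lt (by have := hZd S hS; omega)
  let U : (ι → V →L[ℝ] ℝ) → Set V := fun h => {x | ∀ i, h i x < 0}
  have hUo : ∀ h, IsOpen (U h) := fun h => by
    have : U h = ⋂ i, {x | h i x < 0} := by ext; simp [U]
    rw [this]
    exact isOpen_iInter_of_finite fun i => isOpen_lt (h i).continuous continuous_const
  have hUc : ∀ h, Convex ℝ (U h) := fun h => by
    have : U h = ⋂ i, {x | h i x < 0} := by ext; simp [U]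
    rw [this]
    exact convex_iInter fun i => convex_halfSpace_lt (h i).isLinear 0
  have hUp : ∀ h, IsPreconnected (U h ∩ {y | ∀ S ∈ Z, y ∉ S}) := fun h =>
    isPreconnected_convex_avoid hZ hZd (hUc h) (hUo h)
  have hUT : ∀ h : ι → V →L[ℝ] ℝ, (∀ i, ∀ x ∈ τ i, 0 ≤ h i x) →
      U h ∩ {y | ∀ S ∈ Z, y ∉ S} ⊆ T := fun h hh x hx =>
    ⟨fun i hm => (hh i x hm).not_gt (hx.1 i), hx.2⟩
  apply isPreconnected_of_forall_pair
  intro q hq p hp
  have key : ∀ J : Finset ι, ∃ h : ι → V →L[ℝ] ℝ, (∀ i, ∀ x ∈ τ i, 0 ≤ h i x) ∧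
      (∀ i ∈ J, h i p < 0) ∧ (U h).Nonempty ∧
      ∃ t, t ⊆ T ∧ q ∈ t ∧ U h ∩ {y | ∀ S ∈ Z, y ∉ S} ⊆ t ∧ IsPreconnected t := by
    intro J
    induction J using Finset.induction_on with
    | empty =>
      choose h h1 h2 using fun i => exists_sep (τ i) (hτ i) (hq.1 i)
      exact ⟨h, h1, by simp, ⟨q, h2⟩, _, hUT h h1, ⟨h2, hq.2⟩, Subset.rfl, hUp h⟩
    | insert i J hi ih =>
      obtain ⟨h, h1, h2, ⟨u, hu⟩, t, htT, hqt, hUt, ht⟩ := ih
      obtain ⟨v, hv, hvτ⟩ := exists_ker_notMem Finset.univ h (τ i)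
        (by have := hℓ i; simp only [Finset.card_univ]; omega)
      obtain ⟨f₀, hf₀, hf₀p⟩ := exists_sep (τ i) (hτ i) (hp.1 i)
      obtain ⟨f₁, hf₁, hf₁v⟩ := exists_sep (τ i) (hτ i) hvτ
      have hex : ∃ f : V →L[ℝ] ℝ, (∀ x ∈ τ i, 0 ≤ f x) ∧ f p < 0 ∧
          ∃ v' : V, (∀ j, h j v' = 0) ∧ f v' < 0 := by
        rcases lt_trichotomy (f₀ v) 0 with h0 | h0 | h0
        · exact ⟨f₀, hf₀, hf₀p, v, fun j => hv j (Finset.mem_univ _), h0⟩
        · obtain ⟨s, hs, hs'⟩ := exists_large (f₁ p) (f₀ p) hf₀p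
          refine ⟨f₁ + s • f₀, fun x hx => ?_, by simpa using hs', v,
            fun j => hv j (Finset.mem_univ _), by simpa [h0] using hf₁v⟩
          have := hf₀ x hx
          have := hf₁ x hx
          simp only [add_apply, smul_apply, smul_eq_mul]
          positivity
        · exact ⟨f₀, hf₀, hf₀p, -v, fun j => by simp [hv j (Finset.mem_univ _)], by simpa using h0⟩
      obtain ⟨f, hf, hfp, v', hv', hfv'⟩ := hex
      obtain ⟨s, -, hs⟩ := exists_large (f u) (f v') hfv'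
      let h' := Function.update h i f
      have h1' : ∀ j, ∀ x ∈ τ j, 0 ≤ h' j x := fun j => by
        by_cases hj : j = i
        · subst hj; simpa [h'] using hf
        · simpa [h', hj] using h1 j
      have hw : u + s • v' ∈ U h ∩ U h' := by
        have hw1 : ∀ j, h j (u + s • v') < 0 := fun j => by simpa [hv' j] using hu j
        refine ⟨hw1, fun j => ?_⟩
        by_cases hj : j = i
        · subst hj; simpa [h'] using hs
        · simpa [h', hj] using hw1 j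
      obtain ⟨w, hwU, hwZ⟩ := hdense.inter_open_nonempty _ ((hUo h).inter (hUo h')) ⟨_, hw⟩
      refine ⟨h', h1', fun j hj => ?_, ⟨_, hw.2⟩, t ∪ (U h' ∩ {y | ∀ S ∈ Z, y ∉ S}),
        union_subset htT (hUT h' h1'), Or.inl hqt, subset_union_right,
        IsPreconnected.union w (hUt ⟨hwU.1, hwZ⟩) ⟨hwU.2, hwZ⟩ ht (hUp h')⟩
      rcases Finset.mem_insert.1 hj with rfl | hj
      · simpa [h'] using hfp
      · have : j ≠ i := fun e => hi (e ▸ hj)
        simpa [h', this] using h2 j hj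
  obtain ⟨h, -, h2, -, t, htT, hqt, hUt, ht⟩ := key Finset.univ
  exact ⟨t, htT, hqt, hUt ⟨fun i => h2 i (Finset.mem_univ _), hp.2⟩, ht⟩

end Euclid

section Algebraic

variable {V : Type*} [AddCommGroup V] [Module ℝ V]

/-- a convex cone not contained in any of finitely many subspaces is not covered by them -/
lemma exists_mem_cone_avoid (σ : PointedCone ℝ V) {Z : Set (Submodule ℝ V)} (hZ : Z.Finite)
    (h : ∀ S ∈ Z, ¬ (σ : Set V) ⊆ S) : ∃ x ∈ σ, ∀ S ∈ Z, x ∉ S := by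
  induction Z, hZ using Set.Finite.induction_on with
  | empty => exact ⟨0, σ.zero_mem, by simp⟩
  | @insert S₀ Z _ hZ ih =>
    obtain ⟨x, hx, hxZ⟩ := ih fun S hS => h S (mem_insert_of_mem _ hS)
    obtain ⟨y, hy, hyS⟩ := not_subset.1 (h S₀ (mem_insert _ _))
    have hfin : ∀ S ∈ insert S₀ Z, {t : ℝ | x + t • y ∈ S}.Subsingleton := by
      intro S hS a ha b hb
      by_contra hab
      have hy' : y ∈ S := by
        have h1 : (a - b) • y ∈ S := by
          have := S.sub_mem ha hb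
          convert this using 1
          rw [sub_smul]; abel
        have := S.smul_mem (a - b)⁻¹ h1
        rwa [smul_smul, inv_mul_cancel₀ (sub_ne_zero.2 hab), one_smul] at this
      rcases hS with rfl | hS
      · exact hyS hy'
      · apply hxZ S hS
        have := S.sub_mem ha (S.smul_mem a hy')
        simpa using this
    have hbad : (⋃ S ∈ insert S₀ Z, {t : ℝ | x + t • y ∈ S}).Finite :=
      (hZ.insert S₀).biUnion fun S hS => (hfin S hS).finite
    obtain ⟨t, ht, htb⟩ := (Set.Ici_infinite (0 : ℝ)).exists_notMem_finite hbad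
    refine ⟨x + t • y, σ.add_mem hx (σ.smul_mem ht hy), fun S hS hm => htb ?_⟩
    exact mem_biUnion hS hm

lemma exists_sub_of_mem_span (F : PointedCone ℝ V) {x : V}
    (hx : x ∈ Submodule.span ℝ (F : Set V)) : ∃ a ∈ F, ∃ b ∈ F, x = a - b := by
  induction hx using Submodule.span_induction with
  | mem x hx => exact ⟨x, hx, 0, F.zero_mem, by simp⟩
  | zero => exact ⟨0, F.zero_mem, 0, F.zero_mem, by simp⟩
  | add x y _ _ hx hy =>
    obtain ⟨a, ha, b, hb, rfl⟩ := hx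
    obtain ⟨c, hc, d, hd, rfl⟩ := hy
    exact ⟨a + c, F.add_mem ha hc, b + d, F.add_mem hb hd, by abel⟩
  | smul t x _ hx =>
    obtain ⟨a, ha, b, hb, rfl⟩ := hx
    rcases le_total 0 t with ht | ht
    · exact ⟨t • a, F.smul_mem ht ha, t • b, F.smul_mem ht hb, by rw [smul_sub]⟩
    · refine ⟨(-t) • b, F.smul_mem (by linarith) hb, (-t) • a, F.smul_mem (by linarith) ha, ?_⟩
      rw [smul_sub, neg_smul, neg_smul]; abel

lemma mem_face_of_mem_span {F C : PointedCone ℝ V} (hF : F.IsFaceOf C) {x : V} (hx : x ∈ C)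
    (hs : x ∈ Submodule.span ℝ (F : Set V)) : x ∈ F := by
  obtain ⟨a, ha, b, hb, rfl⟩ := exists_sub_of_mem_span F hs
  exact hF.mem_of_add_mem_left hx (hF.le hb) (by simpa using ha)

end Algebraic

end Pool.Agent.MP_b9d149_co

end

section

namespace Pool.Agent.MP_b9d149_co

open Set Module

variable {n : ℕ} {M : Matroid (Fin n)}

/-- normal cone of the basis `B` -/
def nrm (M : Matroid (Fin n)) (B : Set (Fin n)) : Set (Fin n → ℝ) :=
  {w | ∀ e, ∀ b ∈ B, b ∈ M.fundCircuit e B → w b ≤ w e}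

lemma add_mem_nrm {B : Set (Fin n)} {w w' : Fin n → ℝ} (h : w ∈ nrm M B) (h' : w' ∈ nrm M B) :
    w + w' ∈ nrm M B := fun e b hb hbe => add_le_add (h e b hb hbe) (h' e b hb hbe)

lemma smul_mem_nrm {B : Set (Fin n)} {w : Fin n → ℝ} {t : ℝ} (ht : 0 ≤ t) (h : w ∈ nrm M B) :
    t • w ∈ nrm M B := fun e b hb hbe => mul_le_mul_of_nonneg_left (h e b hb hbe) ht

lemma zero_mem_nrm {B : Set (Fin n)} : (0 : Fin n → ℝ) ∈ nrm M B := fun _ _ _ _ => le_rfl

lemma mem_closure_base (hE : M.E = univ) {B : Set (Fin n)} (hB : M.IsBase B) (e : Fin n) :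
    e ∈ M.closure B := by
  rw [hB.closure_eq, hE]; trivial

lemma fund_subset_of_mem_closure (hE : M.E = univ) {B I : Set (Fin n)} (hB : M.IsBase B)
    (hI : I ⊆ B) {e b : Fin n} (he : e ∈ M.closure I) (hb : b ∈ M.fundCircuit e B) (hne : b ≠ e) :
    b ∈ I := by
  rw [M.fundCircuit_eq_sInter (mem_closure_base hE hB e)] at hb
  rcases hb with rfl | hb
  · exact absurd rfl hne
  · exact hb I ⟨hI, he⟩

lemma mem_closure_fund (hE : M.E = univ) {B : Set (Fin n)} (hB : M.IsBase B) (e : Fin n) :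
    e ∈ M.closure (B ∩ M.fundCircuit e B) := by
  by_cases he : e ∈ B
  · exact M.mem_closure_of_mem' ⟨he, M.mem_fundCircuit e B⟩ (by rw [hE]; trivial)
  · have hC := hB.fundCircuit_isCircuit (x := e) (by rw [hE]; trivial) he
    have := hC.mem_closure_sdiff_singleton_of_mem (M.mem_fundCircuit e B)
    rwa [M.fundCircuit_sdiff_eq_inter he, inter_comm] at this

lemma mem_nrm_iff (hE : M.E = univ) {B : Set (Fin n)} (hB : M.IsBase B) {w : Fin n → ℝ} :
    w ∈ nrm M B ↔ ∀ e, e ∈ M.closure {b | b ∈ B ∧ w b ≤ w e} := by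
  constructor
  · intro h e
    refine M.closure_subset_closure ?_ (mem_closure_fund hE hB e)
    exact fun b hb => ⟨hb.1, h e b hb.1 hb.2⟩
  · intro h e b _ hbe
    by_cases hne : b = e
    · rw [hne]
    · exact (fund_subset_of_mem_closure hE hB (fun x hx => hx.1) (h e) hbe hne).2

lemma fund_nonempty [M.Loopless] (hE : M.E = univ) {B : Set (Fin n)} (hB : M.IsBase B)
    (e : Fin n) : (B ∩ M.fundCircuit e B).Nonempty := by
  by_contra h
  rw [not_nonempty_iff_eq_empty] at h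
  have := mem_closure_fund hE hB e
  rw [h] at this
  exact M.not_isLoop e this

open Classical in
/-- the elements of `B` in the fundamental circuit of `e` -/
noncomputable def fundSet (M : Matroid (Fin n)) (B : Set (Fin n)) (e : Fin n) : Finset B :=
  Finset.univ.filter fun b : B => (b : Fin n) ∈ M.fundCircuit e B

lemma mem_fundSet {B : Set (Fin n)} {e : Fin n} {b : B} :
    b ∈ fundSet M B e ↔ (b : Fin n) ∈ M.fundCircuit e B := by
  simp [fundSet]

lemma fundSet_nonempty [M.Loopless] (hE : M.E = univ) {B : Set (Fin n)} (hB : M.IsBase B)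
    (e : Fin n) : (fundSet M B e).Nonempty := by
  obtain ⟨b, hb, hb'⟩ := fund_nonempty hE hB e
  exact ⟨⟨b, hb⟩, mem_fundSet.2 hb'⟩

/-- the piecewise linear section of the projection to the coordinates in `B` -/
noncomputable def sec [M.Loopless] (hE : M.E = univ) {B : Set (Fin n)} (hB : M.IsBase B)
    (u : B → ℝ) : Fin n → ℝ :=
  fun e => (fundSet M B e).sup' (fundSet_nonempty hE hB e) u

/-- projection to the coordinates in `B` -/
def proj (B : Set (Fin n)) : (Fin n → ℝ) →ₗ[ℝ] (B → ℝ) :=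
  LinearMap.funLeft ℝ ℝ (Subtype.val : B → Fin n)

@[simp] lemma proj_apply (B : Set (Fin n)) (w : Fin n → ℝ) (b : B) : proj B w b = w b := rfl

variable [M.Loopless] (hE : M.E = univ) {B : Set (Fin n)} (hB : M.IsBase B)

lemma continuous_sec : Continuous (sec hE hB) :=
  continuous_pi fun e => Continuous.finset_sup'_apply (f := fun (b : B) (u : B → ℝ) => u b)
    (fundSet_nonempty hE hB e) fun b _ => continuous_apply b

lemma le_sec (u : B → ℝ) {e : Fin n} {b : B} (hb : (b : Fin n) ∈ M.fundCircuit e B) :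
    u b ≤ sec hE hB u e :=
  Finset.le_sup' u (mem_fundSet.2 hb)

lemma exists_sec_eq (u : B → ℝ) (e : Fin n) :
    ∃ b : B, (b : Fin n) ∈ M.fundCircuit e B ∧ sec hE hB u e = u b := by
  obtain ⟨b, hb, h⟩ := Finset.exists_mem_eq_sup' (fundSet_nonempty hE hB e) u
  exact ⟨b, mem_fundSet.1 hb, h⟩

lemma sec_base (u : B → ℝ) (b : B) : sec hE hB u b = u b := by
  obtain ⟨c, hc, h⟩ := exists_sec_eq hE hB u b
  rw [M.fundCircuit_eq_of_mem b.2] at hc
  rw [h, Subtype.ext hc]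

lemma proj_sec (u : B → ℝ) : proj B (sec hE hB u) = u := funext fun b => sec_base hE hB u b

lemma sec_mem_nrm (u : B → ℝ) : sec hE hB u ∈ nrm M B := fun e b hb hbe => by
  have := sec_base hE hB u ⟨b, hb⟩
  simp only at this
  rw [this]
  exact le_sec hE hB u (b := ⟨b, hb⟩) hbe

lemma sec_mem_bergman (u : B → ℝ) : sec hE hB u ∈ bergmanFan M := by
  intro C hC
  set w := sec hE hB u with hw
  obtain ⟨i, hi, hmax⟩ := Set.exists_max_image C w (toFinite C) hC.nonempty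
  by_contra hcon
  have hlt : ∀ k ∈ C, k ≠ i → w k < w i := fun k hk hki => by
    by_contra hge
    exact hcon ⟨i, hi, k, hk, hki.symm, hmax, fun l hl => (hmax l hl).trans (not_lt.1 hge)⟩
  have hsub : C \ {i} ⊆ M.closure {b | b ∈ B ∧ w b < w i} := fun k hk => by
    have h1 := (mem_nrm_iff hE hB).1 (sec_mem_nrm hE hB u) k
    refine M.closure_subset_closure ?_ h1
    exact fun b hb => ⟨hb.1, hb.2.trans_lt (hlt k hk.1 hk.2)⟩
  have hi' : i ∈ M.closure {b | b ∈ B ∧ w b < w i} :=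
    M.closure_subset_closure_of_subset_closure hsub (hC.mem_closure_sdiff_singleton_of_mem hi)
  obtain ⟨b, hb, hbe⟩ := exists_sec_eq hE hB u i
  by_cases hne : (b : Fin n) = i
  · have hiB : i ∈ B := hne ▸ b.2
    have : i ∈ M.closure (B \ {i}) := by
      refine M.closure_subset_closure ?_ hi'
      exact fun x hx =>
        ⟨hx.1, fun h => by rw [mem_singleton_iff.1 h] at hx; exact lt_irrefl _ hx.2⟩
    exact hB.indep.notMem_closure_sdiff_of_mem hiB this
  · have := (fund_subset_of_mem_closure hE hB (fun x hx => hx.1) hi' hb hne).2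
    rw [hw, sec_base hE hB u b, hbe] at this
    exact lt_irrefl _ this

lemma sec_proj {w : Fin n → ℝ} (hw : w ∈ bergmanFan M) (hn : w ∈ nrm M B) :
    sec hE hB (proj B w) = w := by
  funext e
  apply le_antisymm
  · obtain ⟨b, hb, h⟩ := exists_sec_eq hE hB (proj B w) e
    rw [h]
    exact hn e b b.2 hb
  · by_cases he : e ∈ B
    · exact (sec_base hE hB (proj B w) ⟨e, he⟩).ge
    · have hC := hB.fundCircuit_isCircuit (x := e) (by rw [hE]; trivial) he
      obtain ⟨i, hi, j, hj, hij, hmi, hmj⟩ := hw _ hC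
      have key : ∀ k ∈ M.fundCircuit e B, k ≠ e → w e ≤ w k → w e ≤ sec hE hB (proj B w) e :=
        fun k hk hke hle => by
          have hkB : k ∈ B := (M.fundCircuit_subset_insert e B hk).resolve_left hke
          exact hle.trans (le_sec hE hB (proj B w) (b := ⟨k, hkB⟩) hk)
      by_cases hie : i = e
      · exact key j hj (fun h => hij (hie.trans h.symm)) (hmj e (M.mem_fundCircuit e B))
      · exact key i hi hie (hmi e (M.mem_fundCircuit e B))

omit [M.Loopless] in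
include hE hB in
lemma isBase_exchange {e c : Fin n} (he : e ∉ B) (hc : c ∈ M.fundCircuit e B) :
    M.IsBase (insert e B \ {c}) := by
  by_cases hce : c = e
  · subst hce
    rwa [insert_sdiff_self_of_notMem he]
  · have hcB : c ∈ B := (M.fundCircuit_subset_insert e B hc).resolve_left hce
    have hI := (hB.indep.mem_fundCircuit_iff (mem_closure_base hE hB e) he).1 hc
    rw [← insert_sdiff_singleton_comm (Ne.symm hce)] at hI ⊢
    exact hB.exchange_isBase_of_indep he hI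

omit [M.Loopless] in
include hE in
lemma exists_base_nrm (w : Fin n → ℝ) : ∃ B, M.IsBase B ∧ w ∈ nrm M B := by
  classical
  obtain ⟨B, hB, hmin⟩ := Set.exists_min_image {B | M.IsBase B}
    (fun B => ∑ i, B.indicator w i) (toFinite _) M.exists_isBase
  refine ⟨B, hB, fun e b hb hbe => ?_⟩
  by_contra hlt
  rw [not_le] at hlt
  have hne : b ≠ e := fun h => by rw [h] at hlt; exact lt_irrefl _ hlt
  have he : e ∉ B := fun he => by
    rw [M.fundCircuit_eq_of_mem he] at hbe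
    exact hne hbe
  have h1 := hmin _ (isBase_exchange hE hB he hbe)
  have h2 : ∀ i, (insert e B \ {b}).indicator w i =
      B.indicator w i + (if i = e then w e else 0) - (if i = b then w b else 0) := fun i => by
    by_cases hie : i = e
    · subst hie
      simp [indicator, he, hne.symm]
    · by_cases hib : i = b
      · subst hib
        simp [indicator, hb, hne]
      · simp [indicator, hie, hib]
  simp only [h2, Finset.sum_sub_distrib, Finset.sum_add_distrib, Finset.sum_ite_eq',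
    Finset.mem_univ, if_true] at h1
  linarith

/-- the pull-back of a cone inside the Bergman fan to an apartment -/
def pull (τ : PointedCone ℝ (Fin n → ℝ)) (hτ : (τ : Set (Fin n → ℝ)) ⊆ bergmanFan M) :
    PointedCone ℝ (B → ℝ) where
  carrier := {u | sec hE hB u ∈ τ}
  zero_mem' := by
    have := sec_proj hE hB (hτ τ.zero_mem) zero_mem_nrm
    rw [map_zero] at this
    simp only [mem_ofPred_eq, this]
    exact τ.zero_mem
  add_mem' := fun {u v} hu hv => by
    have h1 : sec hE hB u + sec hE hB v ∈ τ := τ.add_mem hu hv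
    have := sec_proj hE hB (hτ h1) (add_mem_nrm (sec_mem_nrm hE hB u) (sec_mem_nrm hE hB v))
    rw [map_add, proj_sec, proj_sec] at this
    simp only [mem_ofPred_eq, this]
    exact h1
  smul_mem' := fun t u hu => by
    have h1 : (t : ℝ) • sec hE hB u ∈ τ := τ.smul_mem t.2 hu
    have := sec_proj hE hB (hτ h1) (smul_mem_nrm t.2 (sec_mem_nrm hE hB u))
    rw [map_smul, proj_sec] at this
    change sec hE hB ((t : ℝ) • u) ∈ τ
    rw [this]
    exact h1

lemma mem_pull {τ : PointedCone ℝ (Fin n → ℝ)} {hτ : (τ : Set (Fin n → ℝ)) ⊆ bergmanFan M}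
    {u : B → ℝ} : u ∈ pull hE hB τ hτ ↔ sec hE hB u ∈ τ := Iff.rfl

lemma isClosed_pull {τ : PointedCone ℝ (Fin n → ℝ)} (hτ : (τ : Set (Fin n → ℝ)) ⊆ bergmanFan M)
    (hc : IsClosed (τ : Set (Fin n → ℝ))) : IsClosed (pull hE hB τ hτ : Set (B → ℝ)) :=
  hc.preimage (continuous_sec hE hB)

lemma finrank_lineal_pull {τ : PointedCone ℝ (Fin n → ℝ)}
    (hτ : (τ : Set (Fin n → ℝ)) ⊆ bergmanFan M) :
    finrank ℝ (pull hE hB τ hτ).lineal ≤ finrank ℝ τ.lineal := by
  refine le_trans (Submodule.finrank_mono ?_) (Submodule.finrank_map_le (proj B) τ.lineal)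
  intro u hu
  obtain ⟨h1, h2⟩ := PointedCone.mem_lineal.1 hu
  rw [mem_pull] at h1 h2
  have h3 : sec hE hB u + sec hE hB (-u) ∈ τ := τ.add_mem h1 h2
  have h4 := sec_proj hE hB (hτ h3) (add_mem_nrm (sec_mem_nrm hE hB u) (sec_mem_nrm hE hB (-u)))
  rw [map_add, proj_sec, proj_sec, add_neg_cancel] at h4
  have h5 := sec_proj hE hB (hτ τ.zero_mem) zero_mem_nrm
  rw [map_zero] at h5
  have h6 : -sec hE hB u = sec hE hB (-u) := by
    rw [neg_eq_iff_add_eq_zero, ← h4, h5]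
  exact ⟨sec hE hB u, PointedCone.mem_lineal.2 ⟨h1, h6 ▸ h2⟩, proj_sec hE hB u⟩

omit [M.Loopless] in
include hB in
lemma finrank_base {r : ℕ} (hr : M.eRank = r) : finrank ℝ (B → ℝ) = r := by
  classical
  have := hB.encard_eq_eRank
  rw [hr] at this
  rw [Module.finrank_fintype_fun_eq_card, ← Nat.card_eq_fintype_card, Nat.card_coe_set_eq,
    Set.ncard_def, this]
  rfl

end Pool.Agent.MP_b9d149_co

end

section

set_option linter.unusedSectionVars false
set_option maxHeartbeats 400000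

namespace Pool.Agent.MP_b9d149_co

open Set Module Filter Topology

variable {n : ℕ} {M : Matroid (Fin n)}

/-- points of the Bergman fan outside the given cones and subspaces -/
def good (M : Matroid (Fin n)) {ι : Type*} (τ : ι → PointedCone ℝ (Fin n → ℝ))
    (Z : Set (Submodule ℝ (Fin n → ℝ))) : Set (Fin n → ℝ) :=
  {w | w ∈ bergmanFan M ∧ (∀ i, w ∉ τ i) ∧ ∀ S ∈ Z, w ∉ S}

/-- generic point of the maximal cone `c c'` of the tropical hyperplane of `C` -/
def gen (C : Set (Fin n)) (c c' : Fin n) (x : Fin n → ℝ) : Prop :=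
  x c = x c' ∧ (∀ d ∈ C, d ≠ c → d ≠ c' → x d < x c) ∧
    ∀ d ∈ C, ∀ d' ∈ C, d ≠ c → d ≠ c' → d' ≠ c → d' ≠ c' → x d = x d' → d = d'

lemma gen_eq {τ : PointedCone ℝ (Fin n → ℝ)} (hτ : (τ : Set (Fin n → ℝ)) ⊆ bergmanFan M)
    {C : Set (Fin n)} (hC : M.IsCircuit C) {c c' : Fin n} (hc : c ∈ C)
    {x y : Fin n → ℝ} (hx : x ∈ τ) (hg : gen C c c' x) (hy : y ∈ τ) : y c = y c' := by
  have hev : ∀ᶠ t : ℝ in atTop, ∀ d, d ∈ C → d ≠ c → d ≠ c' → t * x d + y d < t * x c + y c := by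
    rw [eventually_all]
    intro d
    by_cases h : d ∈ C ∧ d ≠ c ∧ d ≠ c'
    · have ha : 0 < x c - x d := sub_pos.2 (hg.2.1 d h.1 h.2.1 h.2.2)
      filter_upwards [(tendsto_id.atTop_mul_const ha).eventually_gt_atTop (y d - y c)]
        with t ht _ _ _
      simp only [id] at ht
      linarith
    · exact Eventually.of_forall fun t h1 h2 h3 => absurd ⟨h1, h2, h3⟩ h
  obtain ⟨t, ht, ht0⟩ := (hev.and (eventually_ge_atTop 0)).exists
  obtain ⟨i, hi, j, hj, hij, hmi, hmj⟩ := hτ (τ.add_mem (τ.smul_mem ht0 hx) hy) C hC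
  have key : ∀ k ∈ C, (∀ l ∈ C, (t • x + y) l ≤ (t • x + y) k) → k = c ∨ k = c' := by
    intro k hk hmk
    by_contra hcon
    rw [not_or] at hcon
    have h1 := ht k hk hcon.1 hcon.2
    have h2 := hmk c hc
    simp only [Pi.add_apply, Pi.smul_apply, smul_eq_mul] at h2
    linarith
  have hzz : (t • x + y) i = (t • x + y) j := le_antisymm (hmj i hi) (hmi j hj)
  simp only [Pi.add_apply, Pi.smul_apply, smul_eq_mul] at hzz
  have hxc := hg.1
  rcases key i hi hmi with rfl | rfl <;> rcases key j hj hmj with rfl | rfl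
  · exact absurd rfl hij
  · rw [hxc] at hzz; linarith
  · rw [hxc] at hzz; linarith
  · exact absurd rfl hij

lemma gen_unique {τ : PointedCone ℝ (Fin n → ℝ)} (hτ : (τ : Set (Fin n → ℝ)) ⊆ bergmanFan M)
    {C : Set (Fin n)} (hC : M.IsCircuit C) {c c' d d' : Fin n} (hd : d ∈ C) (hd' : d' ∈ C)
    (hdd : d ≠ d') {x y : Fin n → ℝ} (hx : x ∈ τ) (hg : gen C c c' x) (hy : y ∈ τ)
    (hg' : gen C d d' y) : (d = c ∨ d = c') ∧ (d' = c ∨ d' = c') := by
  have h := gen_eq hτ hC hd hy hg' hx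
  have hxc := hg.1
  have aux : ∀ a ∈ C, ∀ b ∈ C, a ≠ b → x a = x b → a = c ∨ a = c' := by
    intro a ha b hb hab hx
    by_contra hcon
    rw [not_or] at hcon
    have h1 := hg.2.1 a ha hcon.1 hcon.2
    by_cases hbc : b = c
    · rw [hbc] at hx; linarith
    · by_cases hbc' : b = c'
      · rw [hbc'] at hx; linarith
      · exact hab (hg.2.2 a ha b hb hcon.1 hcon.2 hbc hbc' hx)
  exact ⟨aux d hd d' hd' hdd h, aux d' hd' d hd hdd.symm h.symm⟩

lemma swap_nrm (hE : M.E = univ) {T C : Set (Fin n)} (hC : M.IsCircuit C) (hCT : C ⊆ T)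
    {c c' : Fin n} (hc : c ∈ C) (hB : M.IsBase (T \ {c})) (hB' : M.IsBase (T \ {c'}))
    {w : Fin n → ℝ} (hw : w ∈ nrm M (T \ {c'})) (hmax : ∀ d ∈ C, w d ≤ w c) :
    w ∈ nrm M (T \ {c}) := by
  rw [mem_nrm_iff hE hB]
  rw [mem_nrm_iff hE hB'] at hw
  intro e
  refine M.closure_subset_closure_of_subset_closure ?_ (hw e)
  intro b hb
  by_cases hbc : b = c
  · subst hbc
    refine M.closure_subset_closure ?_ (hC.mem_closure_sdiff_singleton_of_mem hc)
    exact fun d hd => ⟨⟨hCT hd.1, hd.2⟩, (hmax d hd.1).trans hb.2⟩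
  · exact M.mem_closure_of_mem' ⟨⟨hb.1.1, hbc⟩, hb.2⟩ (by rw [hE]; trivial)

variable [M.Loopless] (hE : M.E = univ) {r : ℕ} (hr : M.eRank = r)
  {ι : Type*} [Fintype ι] {τ : ι → PointedCone ℝ (Fin n → ℝ)}
  (hτB : ∀ i, (τ i : Set (Fin n → ℝ)) ⊆ bergmanFan M)
  (hτc : ∀ i, IsClosed (τ i : Set (Fin n → ℝ))) {ℓ : ℕ}
  (hℓ : ∀ i, finrank ℝ (τ i).lineal ≤ ℓ) (hd : Fintype.card ι + ℓ < r)
  {Z : Set (Submodule ℝ (Fin n → ℝ))} (hZ : Z.Finite) (hZd : ∀ S ∈ Z, finrank ℝ S + 2 ≤ r)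

include hE hr hτB hτc hℓ hd hZ hZd in
lemma isPreconnected_apt {B : Set (Fin n)} (hB : M.IsBase B) :
    IsPreconnected (good M τ Z ∩ nrm M B) := by
  classical
  let Z' : Set (Submodule ℝ (B → ℝ)) := (fun S => S.map (proj B)) '' Z
  have hZ' : Z'.Finite := hZ.image _
  have hZ'd : ∀ S ∈ Z', finrank ℝ S + 2 ≤ finrank ℝ (B → ℝ) := by
    rintro _ ⟨S, hS, rfl⟩
    rw [finrank_base hB hr]
    exact (Nat.add_le_add_right (Submodule.finrank_map_le (proj B) S) 2).trans (hZd S hS)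
  have h1 := isPreconnected_compl_cones (fun i => pull hE hB (τ i) (hτB i)) ℓ
    (fun i => isClosed_pull hE hB (hτB i) (hτc i))
    (fun i => (finrank_lineal_pull hE hB (hτB i)).trans (hℓ i))
    (by rw [finrank_base hB hr]; exact hd) hZ' hZ'd
  have hdense : Dense {y : B → ℝ | ∀ S ∈ Z', y ∉ S} :=
    dense_avoid hZ' fun S hS => ne_top_of_finrank_lt (by have := hZ'd S hS; omega)
  have hO : IsOpen {x : B → ℝ | ∀ i, x ∉ pull hE hB (τ i) (hτB i)} := by
    have : {x : B → ℝ | ∀ i, x ∉ pull hE hB (τ i) (hτB i)} =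
        ⋂ i, (pull hE hB (τ i) (hτB i) : Set (B → ℝ))ᶜ := by ext; simp
    rw [this]
    exact isOpen_iInter_of_finite fun i => (isClosed_pull hE hB (hτB i) (hτc i)).isOpen_compl
  have h2 : IsPreconnected
      {u : B → ℝ | (∀ i, sec hE hB u ∉ τ i) ∧ ∀ S ∈ Z, sec hE hB u ∉ S} := by
    refine h1.subset_closure ?_ ?_
    · intro u hu
      refine ⟨fun i hi => hu.1 i ((mem_pull hE hB).2 hi), fun S hS hm => ?_⟩
      exact hu.2 (S.map (proj B)) ⟨S, hS, rfl⟩ (Submodule.mem_map.2 ⟨_, hm, proj_sec hE hB u⟩)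
    · intro u hu
      apply hdense.open_subset_closure_inter hO
      exact fun i hi => hu.1 i ((mem_pull hE hB).1 hi)
  have h3 := h2.image (sec hE hB) (continuous_sec hE hB).continuousOn
  have h4 : good M τ Z ∩ nrm M B = sec hE hB ''
      {u : B → ℝ | (∀ i, sec hE hB u ∉ τ i) ∧ ∀ S ∈ Z, sec hE hB u ∉ S} := by
    ext w
    constructor
    · rintro ⟨⟨h1, h2, h3⟩, h4⟩
      refine ⟨proj B w, ?_, sec_proj hE hB h1 h4⟩
      rw [mem_ofPred_eq, sec_proj hE hB h1 h4]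
      exact ⟨h2, h3⟩
    · rintro ⟨u, hu, rfl⟩
      exact ⟨⟨sec_mem_bergman hE hB u, hu.1, hu.2⟩, sec_mem_nrm hE hB u⟩
  rw [h4]
  exact h3

include hr hτc hZ hZd in
lemma alive {T C : Set (Fin n)} (hC : M.IsCircuit C) (hCT : C ⊆ T)
    {c c' : Fin n} (hc : c ∈ C) (_hc' : c' ∈ C) (hcc : c ≠ c')
    (hB : M.IsBase (T \ {c})) (hB' : M.IsBase (T \ {c'})) (v : ↥(T \ {c'}) → ℝ)
    (hv : ∀ d : ↥(T \ {c'}), d.1 ∈ C → v d = v ⟨c, hCT hc, hcc⟩)
    (hvτ : ∀ i, (∃ x ∈ τ i, gen C c c' x) → v ∉ pull hE hB' (τ i) (hτB i)) :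
    ((good M τ Z ∩ nrm M (T \ {c'})) ∩ (good M τ Z ∩ nrm M (T \ {c}))).Nonempty := by
  classical
  set cB : ↥(T \ {c'}) := ⟨c, hCT hc, hcc⟩ with hcB
  let O₁ : Set (↥(T \ {c'}) → ℝ) :=
    ⋂ i, ⋂ (_ : ∃ x ∈ τ i, gen C c c' x), (pull hE hB' (τ i) (hτB i) : Set _)ᶜ
  let O₂ : Set (↥(T \ {c'}) → ℝ) := ⋂ d : ↥(T \ {c'}), ⋂ (_ : d.1 ∈ C ∧ d ≠ cB), {u | u d < u cB}
  have hO₁ : IsOpen O₁ := isOpen_iInter_of_finite fun i => isOpen_iInter_of_finite fun _ =>
    (isClosed_pull hE hB' (hτB i) (hτc i)).isOpen_compl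
  have hO₂ : IsOpen O₂ := isOpen_iInter_of_finite fun d => isOpen_iInter_of_finite fun _ =>
    isOpen_lt (continuous_apply d) (continuous_apply cB)
  have hne : (O₁ ∩ O₂).Nonempty := by
    let p : ℝ → (↥(T \ {c'}) → ℝ) := fun ε => v + ε • Pi.single cB 1
    have hp : Continuous p := by fun_prop
    have h0 : p 0 ∈ O₁ := by
      simp only [p, zero_smul, add_zero, O₁, mem_iInter]
      exact fun i hi => hvτ i hi
    have hev : ∀ᶠ ε in 𝓝[>] (0 : ℝ), p ε ∈ O₁ :=
      (hp.continuousAt.eventually_mem (hO₁.mem_nhds h0)).filter_mono nhdsWithin_le_nhds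
    obtain ⟨ε, h1, h2⟩ := (hev.and self_mem_nhdsWithin).exists
    refine ⟨p ε, h1, ?_⟩
    simp only [O₂, mem_iInter, mem_ofPred_eq]
    intro d hd
    have h2' : 0 < ε := h2
    simp [p, hd.2, hv d hd.1, h2']
  let Z' : Set (Submodule ℝ (↥(T \ {c'}) → ℝ)) := (fun S => S.map (proj (T \ {c'}))) '' Z ∪
    (fun q : ↥(T \ {c'}) × ↥(T \ {c'}) =>
      LinearMap.ker ((LinearMap.proj q.1 : (↥(T \ {c'}) → ℝ) →ₗ[ℝ] ℝ) - LinearMap.proj q.2)) ''
      {q | q.1 ≠ q.2}
  have hZ' : Z'.Finite := (hZ.image _).union ((toFinite _).image _)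
  have hZ'top : ∀ S ∈ Z', S ≠ ⊤ := by
    rintro _ (⟨S, hS, rfl⟩ | ⟨q, hq, rfl⟩)
    · apply ne_top_of_finrank_lt
      rw [finrank_base hB' hr]
      exact (Submodule.finrank_map_le (proj (T \ {c'})) S).trans_lt (by have := hZd S hS; omega)
    · intro h
      have hm : (Pi.single q.1 1 : ↥(T \ {c'}) → ℝ) ∈ LinearMap.ker
          ((LinearMap.proj q.1 : (↥(T \ {c'}) → ℝ) →ₗ[ℝ] ℝ) - LinearMap.proj q.2) := by
        simp only at h
        rw [h]; trivial
      have hq' : q.2 ≠ q.1 := Ne.symm hq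
      simp [hq'] at hm
  obtain ⟨u, ⟨hu₁, hu₂⟩, huZ⟩ := (dense_avoid hZ' hZ'top).inter_open_nonempty _ (hO₁.inter hO₂) hne
  simp only [O₁, mem_iInter] at hu₁
  simp only [O₂, mem_iInter, mem_ofPred_eq] at hu₂
  have hinj : ∀ d d' : ↥(T \ {c'}), u d = u d' → d = d' := fun d d' h => by
    by_contra hne
    exact huZ _ (Or.inr ⟨(d, d'), hne, rfl⟩) (by simp [h])
  have hCf : C = M.fundCircuit c' (T \ {c'}) := hC.eq_fundCircuit_of_subset hB'.indep (by
    intro d hd
    by_cases h : d = c'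
    · exact Or.inl h
    · exact Or.inr ⟨hCT hd, h⟩)
  set w := sec hE hB' u with hw
  have hwb : ∀ d (hd : d ∈ T \ {c'}), w d = u ⟨d, hd⟩ := fun d hd => sec_base hE hB' u ⟨d, hd⟩
  have hwc : w c = u cB := hwb c _
  have hlt : ∀ d ∈ C, d ≠ c → d ≠ c' → w d < w c := fun d hd h1 h2 => by
    rw [hwb d ⟨hCT hd, h2⟩, hwc]
    exact hu₂ _ ⟨hd, fun h => h1 (congrArg Subtype.val h)⟩
  have hwc' : w c = w c' := by
    apply le_antisymm
    · rw [hwc]
      exact le_sec hE hB' u (b := cB) (hCf ▸ hc)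
    · obtain ⟨b, hb, hbe⟩ := exists_sec_eq hE hB' u c'
      rw [hw, hbe, ← hw, hwc]
      by_cases h : b = cB
      · rw [h]
      · exact (hu₂ b ⟨hCf ▸ hb, h⟩).le
  have hgen : gen C c c' w := by
    refine ⟨hwc', hlt, fun d hd d' hd' _ h2 _ h4 h => ?_⟩
    rw [hwb d ⟨hCT hd, h2⟩, hwb d' ⟨hCT hd', h4⟩] at h
    exact congrArg Subtype.val (hinj _ _ h)
  have hgood : w ∈ good M τ Z := by
    refine ⟨sec_mem_bergman hE hB' u, fun i hi => hu₁ i ⟨w, hi, hgen⟩ hi, fun S hS hm => ?_⟩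
    exact huZ _ (Or.inl ⟨S, hS, rfl⟩) ⟨_, hm, proj_sec hE hB' u⟩
  refine ⟨w, ⟨hgood, sec_mem_nrm hE hB' u⟩, hgood,
    swap_nrm hE hC hCT hc hB hB' (sec_mem_nrm hE hB' u) fun d hd => ?_⟩
  by_cases h1 : d = c
  · rw [h1]
  · by_cases h2 : d = c'
    · rw [h2, hwc']
    · exact (hlt d hd h1 h2).le

include hE hr hτB hτc hZ hZd in
lemma alive_of_empty {T C : Set (Fin n)} (hC : M.IsCircuit C) (hCT : C ⊆ T)
    {c c' : Fin n} (hc : c ∈ C) (hc' : c' ∈ C) (hcc : c ≠ c')
    (hB : M.IsBase (T \ {c})) (hB' : M.IsBase (T \ {c'}))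
    (h : ∀ i, ¬ ∃ x ∈ τ i, gen C c c' x) :
    ((good M τ Z ∩ nrm M (T \ {c'})) ∩ (good M τ Z ∩ nrm M (T \ {c}))).Nonempty :=
  alive hE hr hτB hτc hZ hZd hC hCT hc hc' hcc hB hB' 0 (fun _ _ => rfl)
    fun i hi => absurd hi (h i)

include hE hr hτB hτc hℓ hd hZ hZd in
lemma linked {T C : Set (Fin n)} (hC : M.IsCircuit C) (hCT : C ⊆ T)
    (hT : ∀ c ∈ C, M.IsBase (T \ {c})) {e e' : Fin n} (he : e ∈ C) (he' : e' ∈ C) (hee : e ≠ e') :
    Relation.ReflTransGen (fun B B' : Set (Fin n) =>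
      ((good M τ Z ∩ nrm M B) ∩ (good M τ Z ∩ nrm M B')).Nonempty ∧ B ∈ {B | M.IsBase B})
      (T \ {e'}) (T \ {e}) := by
  classical
  by_cases hcase : ∃ c ∈ C, c ≠ e ∧ c ≠ e' ∧ (∀ i, ¬ ∃ x ∈ τ i, gen C e c x) ∧
      (∀ i, ¬ ∃ x ∈ τ i, gen C c e' x)
  · obtain ⟨c, hc, hce, hce', h1, h2⟩ := hcase
    refine Relation.ReflTransGen.tail (b := T \ {c}) (Relation.ReflTransGen.single ⟨?_, hT e' he'⟩)
      ⟨?_, hT c hc⟩
    · exact alive_of_empty hE hr hτB hτc hZ hZd hC hCT hc he' hce' (hT c hc) (hT e' he') h2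
    · exact alive_of_empty hE hr hτB hτc hZ hZd hC hCT he hc hce.symm (hT e he) (hT c hc) h1
  · refine Relation.ReflTransGen.single ⟨?_, hT e' he'⟩
    let K : Finset (Fin n) := Finset.univ.filter fun d => d ∈ C ∧ d ≠ e ∧ d ≠ e'
    let J : Finset ι := Finset.univ.filter fun i => ∃ x ∈ τ i, gen C e e' x
    have hK : ∀ c : K, c.1 ∈ C ∧ c.1 ≠ e ∧ c.1 ≠ e' := fun c => (Finset.mem_filter.1 c.2).2
    have hex : ∀ c : K, ∃ i, (∃ x ∈ τ i, gen C e c x) ∨ (∃ x ∈ τ i, gen C c e' x) := by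
      intro c
      by_contra hcon
      push Not at hcon
      refine hcase ⟨c, (hK c).1, (hK c).2.1, (hK c).2.2, fun i => ?_, fun i => ?_⟩
      · rintro ⟨x, hx, hg⟩; exact (hcon i).1 x hx hg
      · rintro ⟨x, hx, hg⟩; exact (hcon i).2 x hx hg
    choose g hg using hex
    have hmem : ∀ (c : K) (a b : Fin n), (∃ x ∈ τ (g c), gen C a b x) → c.1 = a ∨ c.1 = b := by
      rintro c a b ⟨x, hx, hgx⟩
      rcases hg c with ⟨y, hy, hgy⟩ | ⟨y, hy, hgy⟩
      · exact (gen_unique (hτB _) hC he (hK c).1 (hK c).2.1.symm hx hgx hy hgy).2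
      · exact (gen_unique (hτB _) hC (hK c).1 he' (hK c).2.2 hx hgx hy hgy).1
    have hgJ : ∀ c : K, g c ∈ Jᶜ := fun c => by
      simp only [J, Finset.mem_compl, Finset.mem_filter, Finset.mem_univ, true_and]
      intro h
      rcases hmem c e e' h with h | h
      · exact (hK c).2.1 h
      · exact (hK c).2.2 h
    have hginj : Function.Injective fun c : K => (⟨g c, hgJ c⟩ : ↥(Jᶜ)) := by
      intro c d h
      have h' : g c = g d := congrArg Subtype.val h
      apply Subtype.ext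
      rcases hg d with hd | hd
      · rcases hmem c e d (h' ▸ hd) with h | h
        · exact absurd h (hK c).2.1
        · exact h
      · rcases hmem c d e' (h' ▸ hd) with h | h
        · exact h
        · exact absurd h (hK c).2.2
    have hcard : K.card + J.card ≤ Fintype.card ι := by
      have h1 := Fintype.card_le_of_injective _ hginj
      rw [Fintype.card_coe, Fintype.card_coe, Finset.card_compl] at h1
      have h2 := Finset.card_le_univ J
      omega
    have hB' := hT e' he'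
    let eB : ↥(T \ {e'}) := ⟨e, hCT he, hee⟩
    let F : (↥(T \ {e'}) → ℝ) →ₗ[ℝ] (K → ℝ) := LinearMap.pi fun d : K =>
      (LinearMap.proj (⟨d.1, hCT (hK d).1, (hK d).2.2⟩ : ↥(T \ {e'})) :
        (↥(T \ {e'}) → ℝ) →ₗ[ℝ] ℝ) - LinearMap.proj eB
    have h1 := F.finrank_range_add_finrank_ker
    have h2 : finrank ℝ (LinearMap.range F) ≤ K.card := by
      simpa using Submodule.finrank_le (LinearMap.range F)
    rw [finrank_base hB' hr] at h1
    obtain ⟨v, hv, hvτ⟩ := exists_notMem_cones_submodule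
      (fun i => pull hE hB' (τ i) (hτB i)) ℓ J
      (fun i _ => isClosed_pull hE hB' (hτB i) (hτc i))
      (fun i _ => (finrank_lineal_pull hE hB' (hτB i)).trans (hℓ i)) (LinearMap.ker F) (by omega)
    refine alive hE hr hτB hτc hZ hZd hC hCT he he' hee (hT e he) hB' v (fun d hd => ?_)
      fun i hi => hvτ i (by simpa [J] using hi)
    by_cases hde : d.1 = e
    · congr 1
      exact Subtype.ext hde
    · have hdK : d.1 ∈ K := by
        simp only [K, Finset.mem_filter, Finset.mem_univ, true_and]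
        exact ⟨hd, hde, d.2.2⟩
      have := congrFun (LinearMap.mem_ker.1 hv) ⟨d.1, hdK⟩
      simpa [F, sub_eq_zero] using this

include hE hr hτB hτc hℓ hd hZ hZd in
theorem isPreconnected_good : IsPreconnected (good M τ Z) := by
  have hU : good M τ Z = ⋃ B ∈ {B | M.IsBase B}, good M τ Z ∩ nrm M B := by
    ext w
    simp only [mem_iUnion, mem_inter_iff, mem_ofPred_eq, exists_prop]
    constructor
    · intro hw
      obtain ⟨B, hB, hw'⟩ := exists_base_nrm hE w
      exact ⟨B, hB, hw, hw'⟩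
    · rintro ⟨B, -, hw, -⟩
      exact hw
  rw [hU]
  refine IsPreconnected.biUnion_of_reflTransGen
    (fun B hB => isPreconnected_apt hE hr hτB hτc hℓ hd hZ hZd hB) ?_
  intro B hB B' hB'
  generalize hk : (B \ B').ncard = k
  induction k generalizing B with
  | zero =>
    rw [Set.ncard_eq_zero (toFinite _), sdiff_eq_empty] at hk
    rw [Matroid.IsBase.eq_of_subset_isBase hB hB' hk]
  | succ k ih =>
    obtain ⟨e, he⟩ : (B \ B').Nonempty := by
      rw [← Set.ncard_pos (toFinite _)]; omega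
    obtain ⟨f, hf, hB₁⟩ := Matroid.IsBase.exchange hB hB' he
    have hef : e ≠ f := fun h => hf.2 (h ▸ he.1)
    have hC := Matroid.IsBase.fundCircuit_isCircuit hB (x := f) (by rw [hE]; trivial) hf.2
    have heq : insert f (B \ {e}) = insert f B \ {e} := insert_sdiff_singleton_comm hef.symm B
    have heC : e ∈ M.fundCircuit f B := by
      rw [(Matroid.IsBase.indep hB).mem_fundCircuit_iff (mem_closure_base hE hB f) hf.2, ← heq]
      exact hB₁.indep
    have hl := linked hE hr hτB hτc hℓ hd hZ hZd hC (M.fundCircuit_subset_insert f B)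
      (fun c hc => isBase_exchange hE hB hf.2 hc) heC (M.mem_fundCircuit f B) hef
    rw [insert_sdiff_self_of_notMem hf.2, ← heq] at hl
    refine hl.trans (ih _ hB₁ ?_)
    have : insert f (B \ {e}) \ B' = (B \ B') \ {e} := by
      ext x
      simp only [Set.mem_sdiff, mem_insert_iff, mem_singleton_iff]
      constructor
      · rintro ⟨rfl | ⟨h1, h2⟩, h3⟩
        · exact absurd hf.1 h3
        · exact ⟨⟨h1, h3⟩, h2⟩
      · rintro ⟨⟨h1, h3⟩, h2⟩
        exact ⟨Or.inr ⟨h1, h2⟩, h3⟩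
    rw [this, Set.ncard_sdiff_singleton_of_mem he, hk]
    rfl

end Pool.Agent.MP_b9d149_co

end

section

set_option linter.unusedSectionVars false
set_option maxHeartbeats 400000

namespace Pool.Agent.MP_b9d149_co

open Set Module Filter Topology
open scoped Pointwise

section Closed

variable {V : Type*} [NormedAddCommGroup V] [NormedSpace ℝ V]

lemma mem_hull_finset {s : Finset V} {x : V} :
    x ∈ PointedCone.hull ℝ (s : Set V) ↔
      ∃ c : V → ℝ, (∀ v ∈ s, 0 ≤ c v) ∧ ∑ v ∈ s, c v • v = x := by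
  constructor
  · intro hx
    obtain ⟨f, -, rfl⟩ := Submodule.mem_span_finset.1 hx
    exact ⟨fun v => (f v : ℝ), fun v _ => (f v).2, rfl⟩
  · rintro ⟨c, hc, rfl⟩
    exact Submodule.sum_mem _ fun v hv =>
      PointedCone.smul_mem _ (hc v hv) (PointedCone.subset_hull (Finset.mem_coe.2 hv))

lemma isClosed_hull_finset (s : Finset V) : IsClosed (PointedCone.hull ℝ (s : Set V) : Set V) := by
  classical
  induction s using Finset.strongInduction with
  | H s ih =>
    by_cases hli : LinearIndependent ℝ (Subtype.val : s → V)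
    · let L : (s → ℝ) →ₗ[ℝ] V := Fintype.linearCombination ℝ (Subtype.val : s → V)
      have hinj : Function.Injective L := hli.fintypeLinearCombination_injective
      have hemb := LinearMap.isClosedEmbedding_of_injective (LinearMap.ker_eq_bot.2 hinj)
      have heq : (PointedCone.hull ℝ (s : Set V) : Set V) = L '' {c | ∀ v, 0 ≤ c v} := by
        ext x
        rw [SetLike.mem_coe, mem_hull_finset]
        constructor
        · rintro ⟨c, hc, rfl⟩
          refine ⟨fun v => c v, fun v => hc v v.2, ?_⟩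
          simp only [L, Fintype.linearCombination_apply]
          exact Finset.sum_coe_sort s fun v => c v • v
        · rintro ⟨c, hc, rfl⟩
          refine ⟨fun v => if h : v ∈ s then c ⟨v, h⟩ else 0, fun v hv => ?_, ?_⟩
          · simpa [hv] using hc ⟨v, hv⟩
          · simp only [L, Fintype.linearCombination_apply]
            rw [← Finset.sum_coe_sort s]
            exact Finset.sum_congr rfl fun v _ => by simp
      rw [heq]
      apply hemb.isClosedMap
      have : {c : s → ℝ | ∀ v, 0 ≤ c v} = ⋂ v, {c | 0 ≤ c v} := by ext; simp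
      rw [this]
      exact isClosed_iInter fun v => isClosed_le continuous_const (continuous_apply v)
    · have hex : ∃ g : V → ℝ, ∑ v ∈ s, g v • v = 0 ∧ ∃ v ∈ s, 0 < g v := by
        obtain ⟨g, hg, i, hi⟩ := Fintype.not_linearIndependent_iff.1 hli
        let g' : V → ℝ := fun v => if h : v ∈ s then g ⟨v, h⟩ else 0
        have hg' : ∑ v ∈ s, g' v • v = 0 := by
          rw [← Finset.sum_coe_sort s, ← hg]
          exact Finset.sum_congr rfl fun v _ => by simp [g']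
        have hi' : g' i = g i := by simp [g']
        rcases lt_or_gt_of_ne hi with h | h
        · refine ⟨fun v => -g' v, ?_, i, i.2, by simp only [hi']; linarith⟩
          simp only [neg_smul, Finset.sum_neg_distrib, hg', neg_zero]
        · exact ⟨g', hg', i, i.2, by rw [hi']; exact h⟩
      obtain ⟨g, hg, v₁, hv₁, hgv₁⟩ := hex
      have heq : (PointedCone.hull ℝ (s : Set V) : Set V) =
          ⋃ v ∈ s, (PointedCone.hull ℝ ((s.erase v : Finset V) : Set V) : Set V) := by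
        ext x
        simp only [mem_iUnion, SetLike.mem_coe, exists_prop]
        constructor
        · intro hx
          obtain ⟨c, hc, rfl⟩ := mem_hull_finset.1 hx
          obtain ⟨v₀, hv₀, hmin⟩ := (s.filter fun v => 0 < g v).exists_min_image
            (fun v => c v / g v) ⟨v₁, Finset.mem_filter.2 ⟨hv₁, hgv₁⟩⟩
          obtain ⟨hv₀s, hgv₀⟩ := Finset.mem_filter.1 hv₀
          have ht : 0 ≤ c v₀ / g v₀ := div_nonneg (hc v₀ hv₀s) hgv₀.le
          refine ⟨v₀, hv₀s, mem_hull_finset.2 ⟨fun v => c v - c v₀ / g v₀ * g v, fun v hv => ?_, ?_⟩⟩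
          · have hvs := Finset.mem_of_mem_erase hv
            rcases lt_or_ge 0 (g v) with h | h
            · have := hmin v (Finset.mem_filter.2 ⟨hvs, h⟩)
              rw [le_div_iff₀ h] at this
              linarith
            · have := mul_nonpos_of_nonneg_of_nonpos ht h
              have := hc v hvs
              linarith
          · rw [Finset.sum_erase s (by simp [hgv₀.ne'])]
            simp only [sub_smul, mul_smul, Finset.sum_sub_distrib, ← Finset.smul_sum, hg,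
              smul_zero, sub_zero]
        · rintro ⟨v, -, hx⟩
          exact Submodule.span_mono (Finset.coe_subset.2 (Finset.erase_subset v s)) hx
      rw [heq]
      exact s.finite_toSet.isClosed_biUnion fun v hv => ih _ (Finset.erase_ssubset hv)

lemma isClosed_of_fg {σ : PointedCone ℝ V} (h : σ.FG) : IsClosed (σ : Set V) := by
  obtain ⟨s, rfl⟩ := h
  exact isClosed_hull_finset s

end Closed

variable {n : ℕ} {M : Matroid (Fin n)} [M.Loopless] (hE : M.E = univ) {r : ℕ} (hr : M.eRank = r)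

include hE hr in
lemma coneDim_le {σ : PointedCone ℝ (Fin n → ℝ)} (hσ : (σ : Set (Fin n → ℝ)) ⊆ bergmanFan M) :
    coneDim σ ≤ r := by
  classical
  let F : (Fin n → Fin n) → Submodule ℝ (Fin n → ℝ) := fun c =>
    LinearMap.eqLocus LinearMap.id (LinearMap.funLeft ℝ ℝ c)
  let Z : Set (Submodule ℝ (Fin n → ℝ)) := F '' {c | finrank ℝ (F c) ≤ r}
  have hZ : Z.Finite := (toFinite _).image _
  by_contra hcon
  obtain ⟨x, hx, hxZ⟩ := exists_mem_cone_avoid σ hZ (by
    rintro _ ⟨c, hc, rfl⟩ hsub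
    exact hcon ((Submodule.finrank_mono (Submodule.span_le.2 hsub)).trans hc))
  obtain ⟨B, hB, hxB⟩ := exists_base_nrm hE x
  choose b _ hb using exists_sec_eq hE hB (proj B x)
  rw [sec_proj hE hB (hσ hx) hxB] at hb
  refine hxZ (F fun e => b e) ⟨_, ?_, rfl⟩ ?_
  · have hle : F (fun e => b e) ≤ LinearMap.range (LinearMap.funLeft ℝ ℝ b) := by
      intro w hw
      exact ⟨proj B w, (LinearMap.mem_eqLocus.1 hw).symm⟩
    refine (Submodule.finrank_mono hle).trans ?_
    rw [← finrank_base hB hr]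
    exact LinearMap.finrank_range_le _
  · exact LinearMap.mem_eqLocus.2 (funext hb)

variable {S : Set (PointedCone ℝ (Fin n → ℝ))} (hS : IsPolyhedralFan S)
  (hsupp : fanSupport S = bergmanFan M)

omit [M.Loopless] in
include hsupp in
lemma subset_bergman {σ : PointedCone ℝ (Fin n → ℝ)} (hσ : σ ∈ S) :
    (σ : Set (Fin n → ℝ)) ⊆ bergmanFan M := by
  rw [← hsupp]
  exact subset_biUnion_of_mem (u := fun σ : PointedCone ℝ (Fin n → ℝ) => (σ : Set (Fin n → ℝ))) hσ

include hE hr hS hsupp in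
lemma exists_facet {x : Fin n → ℝ} (hx : x ∈ bergmanFan M) :
    ∃ σ ∈ S, coneDim σ = r ∧ x ∈ σ := by
  classical
  obtain ⟨B, hB, hxB⟩ := exists_base_nrm hE x
  let Z : Set (Submodule ℝ (B → ℝ)) :=
    (fun ρ : PointedCone ℝ (Fin n → ℝ) =>
      (Submodule.span ℝ (ρ : Set (Fin n → ℝ))).map (proj B)) '' {ρ | ρ ∈ S ∧ coneDim ρ < r}
  have hZ : Z.Finite := (hS.finite.subset fun _ h => h.1).image _
  have hdense : Dense {u : B → ℝ | ∀ T ∈ Z, u ∉ T} := dense_avoid hZ (by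
    rintro _ ⟨ρ, hρ, rfl⟩
    apply ne_top_of_finrank_lt
    rw [finrank_base hB hr]
    exact (Submodule.finrank_map_le _ _).trans_lt hρ.2)
  let F : Set (Fin n → ℝ) := ⋃ σ ∈ {σ | σ ∈ S ∧ coneDim σ = r}, (σ : Set (Fin n → ℝ))
  have hF : IsClosed F := (hS.finite.subset fun _ h => h.1).isClosed_biUnion fun σ hσ =>
    isClosed_of_fg (hS.fg σ hσ.1)
  have hsub : {u : B → ℝ | ∀ T ∈ Z, u ∉ T} ⊆ sec hE hB ⁻¹' F := by
    intro u hu
    have h1 := sec_mem_bergman hE hB u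
    rw [← hsupp] at h1
    obtain ⟨σ, hσ, hm⟩ := mem_iUnion₂.1 h1
    refine mem_iUnion₂.2 ⟨σ, ⟨hσ, ?_⟩, hm⟩
    refine le_antisymm (coneDim_le hE hr (subset_bergman hsupp hσ)) (not_lt.1 fun hlt => ?_)
    exact hu _ ⟨σ, ⟨hσ, hlt⟩, rfl⟩
      (Submodule.mem_map.2 ⟨_, Submodule.subset_span hm, proj_sec hE hB u⟩)
  have hall : proj B x ∈ sec hE hB ⁻¹' F :=
    closure_minimal hsub (hF.preimage (continuous_sec hE hB)) (hdense _)
  rw [mem_preimage, sec_proj hE hB hx hxB] at hall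
  obtain ⟨σ, hσ, hm⟩ := mem_iUnion₂.1 hall
  exact ⟨σ, hσ.1, hσ.2, hm⟩

include hS in
lemma le_of_subset_span_inf {σ τ : PointedCone ℝ (Fin n → ℝ)} (hσ : σ ∈ S) (hτ : τ ∈ S)
    (h : (σ : Set (Fin n → ℝ)) ⊆ Submodule.span ℝ ((σ ⊓ τ : PointedCone ℝ (Fin n → ℝ)) :
      Set (Fin n → ℝ))) : σ ≤ τ := fun _ hx =>
  (mem_face_of_mem_span (hS.inf_isFaceOf σ hσ τ hτ) hx (h hx)).2

include hS in
lemma le_of_coneDim_inf {σ τ : PointedCone ℝ (Fin n → ℝ)} (hσ : σ ∈ S) (hτ : τ ∈ S)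
    (h : coneDim σ ≤ coneDim (σ ⊓ τ)) : σ ≤ τ := by
  apply le_of_subset_span_inf hS hσ hτ
  have : Submodule.span ℝ ((σ ⊓ τ : PointedCone ℝ (Fin n → ℝ)) : Set (Fin n → ℝ)) =
      Submodule.span ℝ (σ : Set (Fin n → ℝ)) :=
    Submodule.eq_of_le_of_finrank_le (Submodule.span_mono fun _ hx => hx.1) h
  rw [this]
  exact Submodule.subset_span

include hS in
lemma coneDim_inf_lt {σ τ : PointedCone ℝ (Fin n → ℝ)} (hσ : σ ∈ S) (hτ : τ ∈ S)
    (hd : coneDim σ = coneDim τ) (hne : σ ≠ τ) : coneDim (σ ⊓ τ) < coneDim σ := by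
  by_contra h
  rw [not_lt] at h
  apply hne
  refine le_antisymm (le_of_coneDim_inf hS hσ hτ h) (le_of_coneDim_inf hS hτ hσ ?_)
  rwa [inf_comm, ← hd]

include hS in
lemma lineal_le_linealitySpace {τ : PointedCone ℝ (Fin n → ℝ)} (hτ : τ ∈ S) :
    τ.lineal ≤ linealitySpace S := by
  apply le_sSup
  intro σ hσ
  have h1 : τ.lineal = σ.lineal := by
    rw [← (hS.inf_isFaceOf τ hτ σ hσ).lineal_congr, inf_comm,
      (hS.inf_isFaceOf σ hσ τ hτ).lineal_congr]
  rw [h1]
  apply Subset.antisymm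
  · rintro _ ⟨a, ha, b, hb, rfl⟩
    exact σ.add_mem ha (PointedCone.mem_lineal.1 hb).1
  · intro a ha
    exact ⟨a, ha, 0, σ.lineal.zero_mem, add_zero a⟩

include hE hr hS hsupp in
theorem main : ConnectedThroughCodimOne S r (r - finrank ℝ (linealitySpace S)) := by
  classical
  intro D hD hcard σ hσ hσd hσD σ' hσ' hσ'd hσ'D
  let Z : Set (Submodule ℝ (Fin n → ℝ)) :=
    (fun ρ : PointedCone ℝ (Fin n → ℝ) => Submodule.span ℝ (ρ : Set (Fin n → ℝ))) ''
      {ρ | ρ ∈ S ∧ coneDim ρ + 2 ≤ r}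
  have hZ : Z.Finite := (hS.finite.subset fun _ h => h.1).image _
  have hZd : ∀ T ∈ Z, finrank ℝ T + 2 ≤ r := by
    rintro _ ⟨ρ, hρ, rfl⟩
    exact hρ.2
  have hW := isPreconnected_good (τ := fun i : D => i.1) hE hr
    (fun i => subset_bergman hsupp (hD i i.2).1) (fun i => isClosed_of_fg (hS.fg _ (hD i i.2).1))
    (ℓ := finrank ℝ (linealitySpace S))
    (fun i => Submodule.finrank_mono (lineal_le_linealitySpace hS (hD i i.2).1))
    (by rw [Fintype.card_coe]; omega) hZ hZd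
  set W := good M (fun i : D => i.1) Z with hWdef
  have hmeet : ∀ a ∈ S, coneDim a = r → a ∉ D → ∃ x ∈ W, x ∈ a := by
    intro a ha had haD
    let Z' : Set (Submodule ℝ (Fin n → ℝ)) := Z ∪ (fun τ : PointedCone ℝ (Fin n → ℝ) =>
      Submodule.span ℝ ((a ⊓ τ : PointedCone ℝ (Fin n → ℝ)) : Set (Fin n → ℝ))) '' D
    have hZ' : Z'.Finite := hZ.union (D.finite_toSet.image _)
    obtain ⟨x, hx, hxZ⟩ := exists_mem_cone_avoid a hZ' (by
      rintro T (hT | ⟨τ, hτ, rfl⟩) hsub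
      · have h1 : coneDim a ≤ finrank ℝ T := Submodule.finrank_mono (Submodule.span_le.2 hsub)
        have := hZd T hT
        omega
      · have h1 : coneDim a ≤ coneDim (a ⊓ τ) := Submodule.finrank_mono (Submodule.span_le.2 hsub)
        have := coneDim_inf_lt hS ha (hD τ hτ).1 (had.trans (hD τ hτ).2.symm)
          (fun h => haD (h ▸ hτ))
        omega)
    refine ⟨x, ⟨subset_bergman hsupp ha hx, fun i hi => ?_, fun T hT => hxZ T (Or.inl hT)⟩, hx⟩
    exact hxZ _ (Or.inr ⟨i.1, i.2, rfl⟩) (Submodule.subset_span ⟨hx, hi⟩)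
  set R : PointedCone ℝ (Fin n → ℝ) → PointedCone ℝ (Fin n → ℝ) → Prop := fun a b =>
    (a ∈ S ∧ coneDim a = r ∧ a ∉ D) ∧ (b ∈ S ∧ coneDim b = r ∧ b ∉ D) ∧
      ∃ ρ ∈ S, coneDim ρ + 1 = r ∧ ρ ≤ a ∧ ρ ≤ b ∧ ∀ τ ∈ D, ¬ ρ ≤ τ with hR
  by_contra hcon
  let A₁ : Set (PointedCone ℝ (Fin n → ℝ)) :=
    {a | (a ∈ S ∧ coneDim a = r ∧ a ∉ D) ∧ Relation.ReflTransGen R σ a}
  let A₂ : Set (PointedCone ℝ (Fin n → ℝ)) :=
    {a | (a ∈ S ∧ coneDim a = r ∧ a ∉ D) ∧ ¬ Relation.ReflTransGen R σ a}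
  have hc₁ : IsClosed (⋃ a ∈ A₁, (a : Set (Fin n → ℝ))) :=
    (hS.finite.subset fun _ h => h.1.1).isClosed_biUnion fun a ha => isClosed_of_fg (hS.fg a ha.1.1)
  have hc₂ : IsClosed (⋃ a ∈ A₂, (a : Set (Fin n → ℝ))) :=
    (hS.finite.subset fun _ h => h.1.1).isClosed_biUnion fun a ha => isClosed_of_fg (hS.fg a ha.1.1)
  obtain ⟨x, hxW, hx₁, hx₂⟩ := isPreconnected_closed_iff.1 hW _ _ hc₁ hc₂
    (by
      intro x hx
      obtain ⟨a, ha, had, hxa⟩ := exists_facet hE hr hS hsupp hx.1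
      have haD : a ∉ D := fun h => hx.2.1 ⟨a, h⟩ hxa
      by_cases h : Relation.ReflTransGen R σ a
      · exact Or.inl (mem_iUnion₂.2 ⟨a, ⟨⟨ha, had, haD⟩, h⟩, hxa⟩)
      · exact Or.inr (mem_iUnion₂.2 ⟨a, ⟨⟨ha, had, haD⟩, h⟩, hxa⟩))
    (by
      obtain ⟨x, hx, hxa⟩ := hmeet σ hσ hσd hσD
      exact ⟨x, hx, mem_iUnion₂.2 ⟨σ, ⟨⟨hσ, hσd, hσD⟩, .refl⟩, hxa⟩⟩)
    (by
      obtain ⟨x, hx, hxa⟩ := hmeet σ' hσ' hσ'd hσ'D
      exact ⟨x, hx, mem_iUnion₂.2 ⟨σ', ⟨⟨hσ', hσ'd, hσ'D⟩, hcon⟩, hxa⟩⟩)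
  obtain ⟨a, ha, hxa⟩ := mem_iUnion₂.1 hx₁
  obtain ⟨b, hb, hxb⟩ := mem_iUnion₂.1 hx₂
  have hab : a ≠ b := fun h => hb.2 (h ▸ ha.2)
  have hρ : a ⊓ b ∈ S := hS.face_mem a ha.1.1 _ (hS.inf_isFaceOf a ha.1.1 b hb.1.1)
  have hlt := coneDim_inf_lt hS ha.1.1 hb.1.1 (ha.1.2.1.trans hb.1.2.1.symm) hab
  have hge : ¬ coneDim (a ⊓ b) + 2 ≤ r := fun h =>
    hxW.2.2 _ ⟨a ⊓ b, ⟨hρ, h⟩, rfl⟩ (Submodule.subset_span ⟨hxa, hxb⟩)
  refine hb.2 (ha.2.tail ⟨ha.1, hb.1, a ⊓ b, hρ, ?_, inf_le_left, inf_le_right, fun τ hτ hle => ?_⟩)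
  · have := ha.1.2.1
    omega
  · exact hxW.2.1 ⟨τ, hτ⟩ (hle ⟨hxa, hxb⟩)

end Pool.Agent.MP_b9d149_co

end
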